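import Pool.Agent.H394Z.WSL.Defs
import Pool.Agent.H394Z.WSL.Unit
import Pool.Agent.H394Z.WSL.Inv

set_option autoImplicit false

namespace Pool.Agent.Results.MP_7df7b8_gt.AWeldedUnit

open Pool.Agent.H394Z.WSL

/-- Some welded string link on two strands is invertible up to self-crossing change but is not
equivalent, up to self-crossing change, to a welded pure braid. -/
theorem result : ∃ D : Gauss 2, (∃ D' : Gauss 2, MulEqOne D D' ∧ MulEqOne D' D) ∧
    ∀ B : Gauss 2, B.Horizontal → ¬ Equiv D B := by
  refine ⟨Z 1 (Or.inl rfl), ⟨Z (-1) (Or.inr rfl), mul_one_p, mul_one_m⟩, fun B hB h => ?_⟩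
  have h1 := v_equiv h
  rw [v_horizontal hB] at h1
  exact absurd h1 (by decide)

end Pool.Agent.Results.MP_7df7b8_gt.AWeldedUnit
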